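import Pool.Agent.SYJ.All1

/-! # Free sums of planar bodies: the Sylvester functional is largest for simplices only

`vol`, `V`, `G`, `Sylv`, `IsBody`, `IsSimplex` are defined in `Pool.Agent.SYL.Defs`, the class
`FSClass` in `Pool.Agent.SYJ.Cls`. -/

namespace Pool.Agent.Results.MP_a8433b_co.FreeSums

open Pool.Agent.SYL Pool.Agent.SYJ

/-- Every member `D ⊆ R^d` of the class generated by the simplices and the planar convex bodies
under affine isomorphisms and free sums is a convex body with `Sylv D ≤ Sylv T` for every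
`d`-simplex `T`, with equality only if `D` is a simplex. In `R^3` the class contains the convex hull
of `B × {0}` and two points `p`, `q`, for every planar convex body `B` and all `p`, `q` with different
heights whose segment meets `B × {0}`. -/
theorem result :
    (∀ (d : ℕ) (D : Set (Fin d → ℝ)), FSClass d D → IsBody D ∧
      ∀ T : Set (Fin d → ℝ), IsSimplex T →
        Sylv d D ≤ Sylv d T ∧ (Sylv d D = Sylv d T ↔ IsSimplex D)) ∧
    (∀ (B : Set (Fin 2 → ℝ)) (p q : Fin 3 → ℝ) (o : Fin 2 → ℝ), IsBody B → p 2 ≠ q 2 → o ∈ B →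
      ![o 0, o 1, 0] ∈ segment ℝ p q →
      FSClass 3 (convexHull ℝ ((fun x : Fin 2 → ℝ => ![x 0, x 1, 0]) '' B ∪ {p, q}))) :=
  ⟨fun _ _ h => All1_main h, fun _ _ _ _ hB hpq ho hs => Ex_main hB hpq ho hs⟩

end Pool.Agent.Results.MP_a8433b_co.FreeSums
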