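import Pool.Agent.SYL.All

/-! # The simplex is a strict local maximiser of the Sylvester functional

`vol`, `V`, `G`, `Sylv`, `IsBody`, `IsSimplex` are defined in `Pool.Agent.SYL.Defs`. -/

namespace Pool.Agent.Results.MP_a8433b_co.SimplexLocalMax

open Pool.Agent.SYL

/-- For every `d ≥ 3` there are `ε, c > 0` such that for every convex body `D` and every simplex
`T ⊇ D` with `vol D ≥ (1 - ε) vol T`: a simplex `T'` of least volume around `D` exists,
`Sylv D ≤ Sylv T (1 - c (1 - vol D / vol T'))`, and `Sylv D = Sylv T` iff `D` is a simplex. -/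
theorem result (d : ℕ) (hd : 3 ≤ d) : ∃ ε c : ℝ, 0 < ε ∧ 0 < c ∧
    ∀ D T : Set (Fin d → ℝ), IsBody D → IsSimplex T → D ⊆ T → (1 - ε) * vol T ≤ vol D →
      (∃ T' : Set (Fin d → ℝ), IsSimplex T' ∧ D ⊆ T' ∧
        (∀ T'' : Set (Fin d → ℝ), IsSimplex T'' → D ⊆ T'' → vol T' ≤ vol T'') ∧
        Sylv d D ≤ Sylv d T * (1 - c * (1 - vol D / vol T'))) ∧
      (Sylv d D = Sylv d T ↔ IsSimplex D) :=
  main d (by omega)

end Pool.Agent.Results.MP_a8433b_co.SimplexLocalMax
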