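import Pool.Agent.SYX.Out

/-! # Supporting hyperplanes of a maximiser of the Sylvester functional at boundary points above the
critical level

`vol`, `V`, `G`, `Sylv`, `IsBody`, `phi` are defined in `Pool.Agent.SYL.Defs`, `tau` in
`Pool.Agent.SYB.Defs`. -/

namespace Pool.Agent.Results.MP_a8433b_co.SupportingHyperplanes

open Pool.Agent.SYL Pool.Agent.SYB Pool.Agent.SYX

/-- Let `D` be a convex body of `R^d` with `Sylv K ≤ Sylv D` for all convex bodies `K` which contain
`D` and have nearly the same volume (for instance a global maximiser), and let `a > 0`. Then there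
is `c > 0` such that at every boundary point `y` of `D` with `phi D y ≥ tau d D + a`:

1. every functional `n ≠ 0` which spans an extreme ray of the normal cone of `D` at `y` is maximal
   over `D` also at a point `z` with `phi D z ≤ tau d D - c`; the segment `[y, z]` lies in the
   boundary;
2. every direction `v` outside the tangent cone of `D` at `y` is cut off by such a functional;
3. if `y` is an exposed point, then it is a common end of two boundary segments `[y, z₁]`,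
   `[y, z₂]` which are not parallel and have `phi D z₁, phi D z₂ ≤ tau d D - c`. -/
theorem result (d : ℕ) (D : Set (Fin d → ℝ)) (hD : IsBody D) (ε : ℝ) (hε : 0 < ε)
    (hmax : ∀ K : Set (Fin d → ℝ), IsBody K → D ⊆ K → vol K - vol D < ε → Sylv d K ≤ Sylv d D)
    (a : ℝ) (ha : 0 < a) :
    ∃ c : ℝ, 0 < c ∧ ∀ y ∈ frontier D, tau d D + a ≤ phi D y →
      (∀ n : StrongDual ℝ (Fin d → ℝ), n ≠ 0 → (∀ x ∈ D, n x ≤ n y) →
        (∀ n₁ n₂ : StrongDual ℝ (Fin d → ℝ), (∀ x ∈ D, n₁ x ≤ n₁ y) → (∀ x ∈ D, n₂ x ≤ n₂ y) →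
          n₁ + n₂ = n → ∃ t : ℝ, n₁ = t • n) →
        ∃ z ∈ frontier D, n z = n y ∧ segment ℝ y z ⊆ frontier D ∧ phi D z ≤ tau d D - c) ∧
      (∀ v : Fin d → ℝ, v ∉ closure {w : Fin d → ℝ | ∃ t : ℝ, 0 < t ∧ y + t • w ∈ D} →
        ∃ n : StrongDual ℝ (Fin d → ℝ), (∀ x ∈ D, n x ≤ n y) ∧ 0 < n v ∧
          ∃ z ∈ frontier D, n z = n y ∧ segment ℝ y z ⊆ frontier D ∧
            phi D z ≤ tau d D - c) ∧
      (y ∈ D.exposedPoints ℝ →
        ∃ z₁ ∈ frontier D, ∃ z₂ ∈ frontier D, segment ℝ y z₁ ⊆ frontier D ∧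
          segment ℝ y z₂ ⊆ frontier D ∧ phi D z₁ ≤ tau d D - c ∧ phi D z₂ ≤ tau d D - c ∧
          LinearIndependent ℝ ![z₁ - y, z₂ - y]) := by
  obtain ⟨C, δ, hC, hδ, hadd⟩ := Out_add hD hε hmax
  obtain ⟨c, hc, hseq⟩ := Out_seq hD hC hδ hadd ha
  refine ⟨c, hc, fun y hy hlev => ?_⟩
  have hyD : y ∈ D := hD.2.1.isClosed.frontier_subset hy
  have hs := hseq y hyD hlev
  refine ⟨fun n hn0 hn hex => ?_, fun v hv => ?_, fun hexp => ?_⟩
  · obtain ⟨z, hz, hz1, hz2⟩ := Out_ext hD hs hn0 hn hex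
    have hseg := Norm_seg hD.1 hyD hz hn0 hn hz1
    exact ⟨z, hseg (right_mem_segment ℝ y z), hz1, hseg, hz2⟩
  · obtain ⟨z, hz, n, hn0, hn, hz1, hz2, hnv⟩ := Out_cone hD hs hv
    have hseg := Norm_seg hD.1 hyD hz hn0 hn hz1
    exact ⟨n, hn, hnv, z, hseg (right_mem_segment ℝ y z), hz1, hseg, hz2⟩
  · exact Out_two hD hs hexp hy (by linarith)

end Pool.Agent.Results.MP_a8433b_co.SupportingHyperplanes
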